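import Pool.Agent.H19.SYA.TB

/-!
# sya_modules, row ARI: arithmetic
-/

set_option autoImplicit false

open Pool.Agent.H19.SYA

namespace Pool.Agent.H90.SYA

theorem pf_ARI : T_ARI := by
  intro α w m n K1 hα hw hm hmn hdvd _ hK hn hlt
  obtain ⟨g, hg⟩ : ∃ g, g = Nat.gcd m K1 := ⟨_, rfl⟩
  rw [← hg] at hlt
  have hgm : g ∣ m := hg ▸ Nat.gcd_dvd_left m K1
  have hgK : g ∣ K1 := hg ▸ Nat.gcd_dvd_right m K1
  have hg1 : 1 ≤ g := Nat.pos_of_dvd_of_pos hgm hm
  have hm2 : 2 ≤ m := by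
    rcases Nat.lt_or_ge m 2 with h | h
    · interval_cases m
      exact absurd (one_dvd n) hdvd
    · exact h
  have hαK : α * K1 = n + m := by linarith
  have hwZ : (1 : ℤ) ≤ w := by exact_mod_cast hw
  have hKZ : (1 : ℤ) ≤ K1 := by exact_mod_cast hK
  have hmZ : (2 : ℤ) ≤ m := by exact_mod_cast hm2
  have hnZ : (m : ℤ) + 1 ≤ n := by exact_mod_cast hmn
  have hbig : 2 * (m : ℤ) + 1 ≤ α * K1 := by linarith
  rcases Nat.lt_or_ge g 2 with h1 | h2
  · -- coprime case
    have hg' : g = 1 := by omega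
    rw [hg'] at hlt
    have hlt' : α * (w * ((m : ℤ) - 1) * K1 - 1) < (m : ℤ) ^ 2 * w := by
      push_cast at hlt
      have : α * (w * ((m : ℤ) - 1) * K1 - 1) = α * (w * (((m : ℤ) - 1) * K1 + 1 - 1) - 1) := by
        ring
      rw [this]
      exact hlt
    have hwK : (1 : ℤ) ≤ (w : ℤ) * K1 := by
      have := mul_le_mul hwZ hKZ (by norm_num) (by linarith)
      linarith
    have hnn : 0 ≤ (w : ℤ) * ((m : ℤ) - 1) * K1 - 1 := by
      have h := mul_le_mul hwK (show (1 : ℤ) ≤ (m : ℤ) - 1 by linarith) (by norm_num)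
        (by linarith)
      have e : (w : ℤ) * K1 * ((m : ℤ) - 1) = (w : ℤ) * ((m : ℤ) - 1) * K1 := by ring
      rw [e] at h
      linarith
    have h3 : (2 * (m : ℤ) + 1) * (w * ((m : ℤ) - 1) * K1 - 1) ≤
        α * K1 * (w * ((m : ℤ) - 1) * K1 - 1) := mul_le_mul_of_nonneg_right hbig hnn
    have h4 : α * K1 * (w * ((m : ℤ) - 1) * K1 - 1) < (m : ℤ) ^ 2 * w * K1 := by
      have := mul_lt_mul_of_pos_right hlt' (lt_of_lt_of_le one_pos hKZ)
      calc α * K1 * (w * ((m : ℤ) - 1) * K1 - 1) = α * (w * ((m : ℤ) - 1) * K1 - 1) * K1 := by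
            ring
        _ < (m : ℤ) ^ 2 * w * K1 := this
    have h5 : (w : ℤ) * K1 * ((m : ℤ) ^ 2 - m - 1) < 2 * m + 1 := by
      have := lt_of_le_of_lt h3 h4
      have e : (w : ℤ) * K1 * ((m : ℤ) ^ 2 - m - 1) =
          (2 * (m : ℤ) + 1) * (w * ((m : ℤ) - 1) * K1 - 1) - (m : ℤ) ^ 2 * w * K1 +
            (2 * m + 1) := by ring
      rw [e]
      linarith
    have hK1 : K1 = 1 := by
      rcases Nat.lt_or_ge m 4 with h6 | h6
      · interval_cases m
        · -- m = 2
          have h7 : (w : ℤ) * K1 < 5 := by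
            norm_num at h5
            linarith
          have h8 : w * K1 < 5 := by exact_mod_cast h7
          have hodd : Nat.gcd 2 K1 = 1 := by rw [← hg, hg']
          have hK5 : K1 < 5 := lt_of_le_of_lt (Nat.le_mul_of_pos_left K1 hw) h8
          interval_cases K1
          · rfl
          · exact absurd hodd (by decide)
          · have hw1 : w = 1 := by omega
            rw [hw1] at hlt'
            norm_num at hlt'
            push_cast at hbig
            omega
          · exact absurd hodd (by decide)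
        · -- m = 3
          have h7 : (w : ℤ) * K1 * 5 < 7 := by
            norm_num at h5
            linarith
          have h8 : w * K1 * 5 < 7 := by exact_mod_cast h7
          have h9 : K1 ≤ w * K1 := Nat.le_mul_of_pos_left K1 hw
          omega
      · exfalso
        have h7 : (4 : ℤ) ≤ m := by exact_mod_cast h6
        have h8 : 2 * (m : ℤ) + 3 ≤ (m : ℤ) ^ 2 - m - 1 := by nlinarith
        have h9 : (m : ℤ) ^ 2 - m - 1 ≤ (w : ℤ) * K1 * ((m : ℤ) ^ 2 - m - 1) :=
          le_mul_of_one_le_left (by linarith) hwK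
        linarith
    refine ⟨hK1, hm2, ?_⟩
    rw [hK1] at hlt' hαK
    push_cast at hlt' hαK
    have hn' : (n : ℤ) = α - m := by linarith
    rw [hn']
    have e : (w : ℤ) * (((m : ℤ) - 1) * (α - m) - m) =
        α * (w * ((m : ℤ) - 1) * 1 - 1) - (m : ℤ) ^ 2 * w + α := by ring
    rw [e]
    linarith
  · exfalso
    have hgm' : g < m := by
      refine lt_of_le_of_ne (Nat.le_of_dvd hm hgm) fun h => hdvd ?_
      have h3 : (m : ℤ) ∣ α * K1 := by
        rw [← h]
        exact Dvd.dvd.mul_left (by exact_mod_cast hgK) α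
      rw [hαK] at h3
      have h4 : (m : ℤ) ∣ n := (Int.dvd_add_left (dvd_refl _)).1 h3
      exact_mod_cast h4
    obtain ⟨r, hr⟩ := hgm
    have hr2 : 2 ≤ r := by
      rcases Nat.lt_or_ge r 2 with h | h
      · interval_cases r
        · omega
        · omega
      · exact h
    have h2g : 2 * (g : ℤ) ≤ m := by
      have : 2 * g ≤ m := by
        rw [hr, mul_comm 2 g]
        exact Nat.mul_le_mul_left g hr2
      exact_mod_cast this
    have hgZ : (2 : ℤ) ≤ g := by exact_mod_cast h2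
    have hx : (w : ℤ) * ((m : ℤ) - g) * K1 ≤ w * (((m : ℤ) - g) * K1 + g - 1) - 1 := by
      have h := mul_le_mul hwZ (show (1 : ℤ) ≤ (g : ℤ) - 1 by linarith) (by norm_num)
        (by linarith)
      have e : (w : ℤ) * (((m : ℤ) - g) * K1 + g - 1) - 1 =
          (w : ℤ) * ((m : ℤ) - g) * K1 + ((w : ℤ) * ((g : ℤ) - 1) - 1) := by ring
      rw [e]
      linarith
    have h3 : α * ((w : ℤ) * ((m : ℤ) - g) * K1) < (m : ℤ) ^ 2 * w :=
      lt_of_le_of_lt (mul_le_mul_of_nonneg_left hx hα.le) hlt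
    have h4 : (w : ℤ) * ((m : ℤ) - g) * (2 * m + 1) ≤ (w : ℤ) * ((m : ℤ) - g) * (α * K1) :=
      mul_le_mul_of_nonneg_left hbig (mul_nonneg (by linarith) (by linarith))
    have h5 : (w : ℤ) * ((m : ℤ) - g) * (2 * m + 1) < (m : ℤ) ^ 2 * w := by
      calc (w : ℤ) * ((m : ℤ) - g) * (2 * m + 1) ≤ (w : ℤ) * ((m : ℤ) - g) * (α * K1) := h4
        _ = α * ((w : ℤ) * ((m : ℤ) - g) * K1) := by ring
        _ < (m : ℤ) ^ 2 * w := h3
    have h6 : (w : ℤ) * m * (2 * m + 1) ≤ 2 * ((w : ℤ) * ((m : ℤ) - g) * (2 * m + 1)) := by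
      have h0 : 0 ≤ (w : ℤ) * (2 * m + 1) := by positivity
      have h := mul_le_mul_of_nonneg_left (show (m : ℤ) ≤ 2 * ((m : ℤ) - g) by linarith) h0
      calc (w : ℤ) * m * (2 * m + 1) = (w : ℤ) * (2 * m + 1) * m := by ring
        _ ≤ (w : ℤ) * (2 * m + 1) * (2 * ((m : ℤ) - g)) := h
        _ = 2 * ((w : ℤ) * ((m : ℤ) - g) * (2 * m + 1)) := by ring
    have h7 : 2 * ((m : ℤ) ^ 2 * w) < (w : ℤ) * m * (2 * m + 1) := by
      have h0 : 0 < (w : ℤ) * m := by positivity
      have e : (w : ℤ) * m * (2 * m + 1) = 2 * ((m : ℤ) ^ 2 * w) + (w : ℤ) * m := by ring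
      rw [e]
      linarith
    linarith

end Pool.Agent.H90.SYA
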