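import Pool.Agent.H19.SYA.TA

/-!
# sya_modules, row CAR: arithmetic of the exponents
-/

set_option autoImplicit false

open Pool.Agent.H19.SYA

namespace Pool.Agent.H90.SYA

theorem sorted235 (a b c : ℕ) (ha : 2 ≤ a) (hab : a < b) (hbc : b < c)
    (h : a * b * c < a * b + b * c + c * a) (h2 : Nat.Coprime a c) :
    a = 2 ∧ b = 3 ∧ c = 5 := by
  have ha3 : a < 3 := by
    by_contra hcon
    have h3 : 3 ≤ a := by omega
    have h4 : 3 * (b * c) ≤ a * (b * c) := Nat.mul_le_mul_right _ h3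
    have h5 : a * b ≤ b * c := by
      rw [mul_comm a b]
      exact Nat.mul_le_mul_left b (by omega)
    have h6 : c * a ≤ b * c := by
      rw [mul_comm b c]
      exact Nat.mul_le_mul_left c (by omega)
    have h7 : a * b * c = a * (b * c) := by ring
    omega
  obtain rfl : a = 2 := by omega
  have hb : b < 4 := by
    by_contra hcon
    have h3 : 4 * c ≤ b * c := Nat.mul_le_mul_right _ (by omega)
    have h7 : 2 * b * c = 2 * (b * c) := by ring
    omega
  obtain rfl : b = 3 := by omega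
  have hc : c < 6 := by omega
  refine ⟨rfl, rfl, ?_⟩
  interval_cases c
  · exact absurd h2 (by decide)
  · rfl

theorem perm235 (a b c : ℕ) (ha : 2 ≤ a) (hb : 2 ≤ b) (hc : 2 ≤ c) (hab : Nat.Coprime a b)
    (hbc : Nat.Coprime b c) (hac : Nat.Coprime a c)
    (h : a * b * c < a * b + b * c + c * a) :
    a * b * c = 30 ∧ 30 ∣ 15 * a * b * c ∧
    ((a = 2 ∨ a = 3 ∨ a = 5) ∧ (b = 2 ∨ b = 3 ∨ b = 5) ∧ (c = 2 ∨ c = 3 ∨ c = 5)) := by
  have ne : ∀ x y : ℕ, 2 ≤ x → Nat.Coprime x y → x ≠ y := by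
    rintro x y hx hxy rfl
    rw [Nat.coprime_self] at hxy
    omega
  have n1 := ne a b ha hab
  have n2 := ne b c hb hbc
  have n3 := ne a c ha hac
  have key : (a = 2 ∧ b = 3 ∧ c = 5) ∨ (a = 2 ∧ c = 3 ∧ b = 5) ∨ (b = 2 ∧ a = 3 ∧ c = 5) ∨
      (b = 2 ∧ c = 3 ∧ a = 5) ∨ (c = 2 ∧ a = 3 ∧ b = 5) ∨ (c = 2 ∧ b = 3 ∧ a = 5) := by
    rcases Nat.lt_or_gt_of_ne n1 with h1 | h1
    · rcases Nat.lt_or_gt_of_ne n2 with h2 | h2
      · exact Or.inl (sorted235 a b c ha h1 h2 h hac)
      · rcases Nat.lt_or_gt_of_ne n3 with h3 | h3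
        · exact Or.inr (Or.inl (sorted235 a c b ha h3 h2 (by linarith) hab))
        · exact Or.inr (Or.inr (Or.inr (Or.inr (Or.inl
            (sorted235 c a b hc h3 h1 (by linarith) hbc.symm)))))
    · rcases Nat.lt_or_gt_of_ne n3 with h3 | h3
      · exact Or.inr (Or.inr (Or.inl (sorted235 b a c hb h1 h3 (by linarith) hbc)))
      · rcases Nat.lt_or_gt_of_ne n2 with h2 | h2
        · exact Or.inr (Or.inr (Or.inr (Or.inl
            (sorted235 b c a hb h2 h3 (by linarith) hab.symm))))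
        · exact Or.inr (Or.inr (Or.inr (Or.inr (Or.inr
            (sorted235 c b a hc h2 h1 (by linarith) hac.symm)))))
  rcases key with ⟨rfl, rfl, rfl⟩ | ⟨rfl, rfl, rfl⟩ | ⟨rfl, rfl, rfl⟩ | ⟨rfl, rfl, rfl⟩ |
    ⟨rfl, rfl, rfl⟩ | ⟨rfl, rfl, rfl⟩ <;> norm_num

theorem pf_CAR : T_CAR := by
  intro n e ω l he heω hl hcop hsum htri
  by_contra hn0
  have hn : 1 ≤ n := Nat.one_le_iff_ne_zero.2 hn0
  have hω : ∀ i, 0 < ω i := by
    intro i
    rcases Nat.eq_zero_or_pos (ω i) with h | h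
    · have := heω i
      rw [h, mul_zero] at this
      omega
    · exact h
  -- the inequality without `l`
  have hin : ∀ i j t, i ≠ j → j ≠ t → i ≠ t →
      e i * e j * e t < e i * e j + e j * e t + e t * e i := by
    intro i j t h1 h2 h3
    have h := htri i j t h1 h2 h3
    have e1 := heω i
    have e2 := heω j
    have e3 := heω t
    have a1 : 0 < e i := by have := he i; omega
    have a2 : 0 < e j := by have := he j; omega
    have a3 : 0 < e t := by have := he t; omega
    have h4 : e i * e j * e t * (l + 2) ≤ e i * e j * e t * (ω i + ω j + ω t) :=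
      Nat.mul_le_mul_left _ h
    have h5 : e i * e j * e t * (ω i + ω j + ω t) =
        (e j * e t) * (e i * ω i) + (e i * e t) * (e j * ω j) + (e i * e j) * (e t * ω t) := by
      ring
    rw [h5, e1, e2, e3] at h4
    have h6 : 0 < e i * e j * e t := by positivity
    by_contra hcon
    have h7 : e i * e j + e j * e t + e t * e i ≤ e i * e j * e t := not_lt.1 hcon
    have h8 := Nat.mul_le_mul_right l h7
    nlinarith
  set i0 : Fin (n + 2) := ⟨0, by omega⟩ with hi0
  set i1 : Fin (n + 2) := ⟨1, by omega⟩ with hi1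
  set i2 : Fin (n + 2) := ⟨2, by omega⟩ with hi2
  have n01 : i0 ≠ i1 := fun h => by have := congrArg Fin.val h; simp [hi0, hi1] at this
  have n12 : i1 ≠ i2 := fun h => by have := congrArg Fin.val h; simp [hi1, hi2] at this
  have n02 : i0 ≠ i2 := fun h => by have := congrArg Fin.val h; simp [hi0, hi2] at this
  obtain ⟨hp, _, hva, hvb, hvc⟩ := perm235 (e i0) (e i1) (e i2) (he _) (he _) (he _)
    (hcop _ _ n01) (hcop _ _ n12) (hcop _ _ n02) (hin _ _ _ n01 n12 n02)
  rcases Nat.lt_or_ge n 2 with h | h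
  · -- three factors
    obtain rfl : n = 1 := by omega
    have hd : ∀ i, e i ∣ l := fun i => ⟨ω i, (heω i).symm⟩
    have h30 : 30 ∣ l := by
      have h1 : e i0 * e i1 ∣ l := (hcop _ _ n01).mul_dvd_of_dvd_of_dvd (hd _) (hd _)
      have h2 : Nat.Coprime (e i0 * e i1) (e i2) :=
        Nat.Coprime.mul_left (hcop _ _ n02) (hcop _ _ n12)
      have h3 := h2.mul_dvd_of_dvd_of_dvd h1 (hd _)
      rw [hp] at h3
      exact h3
    obtain ⟨l', hl'⟩ := h30
    have hdiv : ∀ i : Fin 3, (e i = 2 ∨ e i = 3 ∨ e i = 5) → l' ∣ ω i := by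
      intro i hi
      have h1 := heω i
      rw [hl'] at h1
      rcases hi with h2 | h2 | h2
      · rw [h2] at h1
        exact ⟨15, by omega⟩
      · rw [h2] at h1
        exact ⟨10, by omega⟩
      · rw [h2] at h1
        exact ⟨6, by omega⟩
    have hall : ∀ i : Fin 3, l' ∣ ω i := by
      intro i
      match i with
      | 0 => exact hdiv _ hva
      | 1 => exact hdiv _ hvb
      | 2 => exact hdiv _ hvc
    obtain ⟨c, hc⟩ := hsum
    have hl1 : (l' : ℤ) ∣ 1 := by
      rw [← hc]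
      exact Finset.dvd_sum fun i _ => Dvd.dvd.mul_left (by exact_mod_cast hall i) _
    have hl1' : l' = 1 := by
      have := Int.natCast_dvd_natCast.1 (show (l' : ℤ) ∣ ((1 : ℕ) : ℤ) by exact_mod_cast hl1)
      exact Nat.dvd_one.1 this
    have ht := htri i0 i1 i2 n01 n12 n02
    have e1 := heω i0
    have e2 := heω i1
    have e3 := heω i2
    rw [hl', hl1'] at e1 e2 e3 ht
    rcases hva with h1 | h1 | h1 <;> rcases hvb with h2 | h2 | h2 <;>
      rcases hvc with h3 | h3 | h3 <;> rw [h1, h2, h3] at hp <;> rw [h1] at e1 <;>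
      rw [h2] at e2 <;> rw [h3] at e3 <;> omega
  · -- four factors
    set i3 : Fin (n + 2) := ⟨3, by omega⟩ with hi3
    have n13 : i1 ≠ i3 := fun h => by have := congrArg Fin.val h; simp [hi1, hi3] at this
    have n03 : i0 ≠ i3 := fun h => by have := congrArg Fin.val h; simp [hi0, hi3] at this
    have n23 : i2 ≠ i3 := fun h => by have := congrArg Fin.val h; simp [hi2, hi3] at this
    obtain ⟨hq, _⟩ := perm235 (e i0) (e i1) (e i3) (he _) (he _) (he _)
      (hcop _ _ n01) (hcop _ _ n13) (hcop _ _ n03) (hin _ _ _ n01 n13 n03)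
    have h1 : e i0 * e i1 * e i2 = e i0 * e i1 * e i3 := by rw [hp, hq]
    have h2 : 0 < e i0 * e i1 := by
      have a1 := he i0
      have a2 := he i1
      positivity
    have h3 := Nat.eq_of_mul_eq_mul_left h2 h1
    have h4 := hcop _ _ n23
    rw [← h3, Nat.coprime_self] at h4
    have h5 := he i2
    omega

end Pool.Agent.H90.SYA
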