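import Mathlib

/-!
# sya_modules, row JAC, part a: zeros of polynomials, weights of divisors
-/

set_option autoImplicit false

open MvPolynomial

namespace Pool.Agent.H90.SYA

theorem zero_cons {k : Type} [Field k] [IsAlgClosed k] (n : ℕ)
    (f : MvPolynomial (Fin (n + 1)) k) (h0 : f ≠ 0) (hu : ¬ IsUnit f)
    (b : MvPolynomial (Fin n) k) (hb : b ≠ 0)
    (ih : ∀ g : MvPolynomial (Fin n) k, g ≠ 0 → ¬ IsUnit g → ∃ z, eval z g = 0) :
    ∃ (y : k) (s : Fin n → k), eval (Fin.cons y s : Fin (n + 1) → k) f = 0 ∧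
      (y = 1 ∨ eval s b ≠ 0) := by
  have hinf : Infinite k := IsAlgClosed.instInfinite
  set P := finSuccEquiv k n f with hP
  have hP0 : P ≠ 0 := fun h => h0 ((finSuccEquiv k n).injective (by rw [map_zero]; exact h))
  have hPu : ¬ IsUnit P := fun h => hu ((MulEquiv.isUnit_map (finSuccEquiv k n)).1 h)
  by_cases hd : P.natDegree = 0
  · obtain ⟨a, ha⟩ : ∃ a, P = Polynomial.C a := ⟨_, Polynomial.eq_C_of_natDegree_eq_zero hd⟩
    have ha0 : a ≠ 0 := by
      rintro rfl
      exact hP0 (by rw [ha, Polynomial.C_0])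
    have hau : ¬ IsUnit a := fun h => hPu (by rw [ha]; exact h.map Polynomial.C)
    obtain ⟨s, hs⟩ := ih a ha0 hau
    refine ⟨1, s, ?_, Or.inl rfl⟩
    rw [eval_eq_eval_mv_eval', ← hP, ha, Polynomial.map_C, Polynomial.eval_C]
    exact hs
  · have hne : P.leadingCoeff * b ≠ 0 := mul_ne_zero (Polynomial.leadingCoeff_ne_zero.2 hP0) hb
    obtain ⟨s, hs⟩ : ∃ s, eval s (P.leadingCoeff * b) ≠ 0 := by
      by_contra hcon
      push Not at hcon
      exact hne (MvPolynomial.funext fun s => by rw [hcon s, map_zero])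
    rw [map_mul] at hs
    obtain ⟨h1, h2⟩ := mul_ne_zero_iff.1 hs
    have hdeg : (P.map (eval s)).natDegree = P.natDegree :=
      Polynomial.natDegree_map_of_leadingCoeff_ne_zero _ h1
    obtain ⟨y, hy⟩ := IsAlgClosed.exists_root (P.map (eval s)) (by
      intro h
      have := Polynomial.natDegree_eq_of_degree_eq_some (n := 0) (by rw [h]; rfl)
      rw [hdeg] at this
      exact hd this)
    refine ⟨y, s, ?_, Or.inr h2⟩
    rw [eval_eq_eval_mv_eval']
    exact hy

theorem exists_zero {k : Type} [Field k] [IsAlgClosed k] (n : ℕ) :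
    ∀ g : MvPolynomial (Fin n) k, g ≠ 0 → ¬ IsUnit g → ∃ z, eval z g = 0 := by
  induction n with
  | zero =>
    intro g h0 hu
    exfalso
    apply hu
    rw [eq_C_of_isEmpty g] at h0 ⊢
    have : coeff 0 g ≠ 0 := fun h => h0 (by rw [h, C_0])
    exact (isUnit_iff_ne_zero.2 this).map C
  | succ n ih =>
    intro g h0 hu
    obtain ⟨y, s, h, _⟩ := zero_cons n g h0 hu 1 one_ne_zero ih
    exact ⟨_, h⟩

/-- a nonconstant polynomial in two variables has a zero different from the origin -/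
theorem exists_zero_ne {k : Type} [Field k] [IsAlgClosed k] (f : MvPolynomial (Fin 2) k)
    (h0 : f ≠ 0) (hu : ¬ IsUnit f) : ∃ z : Fin 2 → k, z ≠ 0 ∧ eval z f = 0 := by
  obtain ⟨y, s, h, h2⟩ := zero_cons 1 f h0 hu (X 0) (X_ne_zero 0) (exists_zero 1)
  refine ⟨_, fun hz => ?_, h⟩
  rcases h2 with rfl | h2
  · exact one_ne_zero (congrFun hz 0)
  · rw [eval_X] at h2
    exact h2 (congrFun hz 1)

/-- the substitution which records the weight -/
noncomputable def Phi {k : Type} [Field k] (w : Fin 2 → ℕ) :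
    MvPolynomial (Fin 2) k →ₐ[k] Polynomial (MvPolynomial (Fin 2) k) :=
  aeval fun i => Polynomial.C (X i) * Polynomial.X ^ w i

theorem Phi_hom {k : Type} [Field k] (w : Fin 2 → ℕ) {a : ℕ} {f : MvPolynomial (Fin 2) k}
    (hf : IsWeightedHomogeneous w f a) : Phi w f = Polynomial.C f * Polynomial.X ^ a := by
  induction hf using IsWeightedHomogeneous.induction_on with
  | zero => rw [map_zero, Polynomial.C_0, zero_mul]
  | add p q _ _ h1 h2 => rw [map_add, h1, h2, Polynomial.C_add, add_mul]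
  | monomial d r hr =>
    rw [Phi, aeval_monomial, ← hr, Finsupp.weight_apply, Finsupp.prod_fintype _ _ (by simp),
      Finsupp.sum_fintype _ _ (by simp)]
    have h1 : (monomial d r : MvPolynomial (Fin 2) k) = C r * (X 0 ^ d 0 * X 1 ^ d 1) := by
      rw [monomial_eq, Finsupp.prod_fintype _ _ (by simp), Fin.prod_univ_two]
    rw [h1, Fin.prod_univ_two, Fin.sum_univ_two]
    simp only [smul_eq_mul, mul_pow, Polynomial.C_mul, Polynomial.C_pow]
    have h2 : (algebraMap k (Polynomial (MvPolynomial (Fin 2) k))) r = Polynomial.C (C r) := rfl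
    rw [h2, pow_add, pow_mul', pow_mul']
    ring

/-- the weight of a divisor -/
theorem weight_le {k : Type} [Field k] (w : Fin 2 → ℕ) {a b : ℕ}
    {f h : MvPolynomial (Fin 2) k} (hf : IsWeightedHomogeneous w f a)
    (hh : IsWeightedHomogeneous w h b) (h0 : h ≠ 0) (hd : f ∣ h) : a ≤ b := by
  by_contra hab
  obtain ⟨q, hq⟩ := hd
  have h1 := congrArg (Phi w) hq
  rw [map_mul, Phi_hom w hf, Phi_hom w hh] at h1
  have h2 : Polynomial.X ^ a ∣ Polynomial.C h * Polynomial.X ^ b := by
    rw [h1]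
    exact ⟨Polynomial.C f * Phi w q, by ring⟩
  have h3 := (Polynomial.X_pow_dvd_iff.1 h2) b (not_le.1 hab)
  rw [Polynomial.coeff_C_mul, Polynomial.coeff_X_pow, if_pos rfl, mul_one] at h3
  exact h0 h3

end Pool.Agent.H90.SYA
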