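import Pool.Agent.H19.SYA.TA
import Pool.Agent.H90.SYA.JACa

/-!
# sya_modules, row JAC: the Jacobian inequality
-/

set_option autoImplicit false

open MvPolynomial Pool.Agent.H19.SYA

namespace Pool.Agent.H90.SYA

theorem X_pderiv_hom {k : Type} [Field k] (w : Fin 2 → ℕ) {a : ℕ} {f : MvPolynomial (Fin 2) k}
    (j : Fin 2) (hf : IsWeightedHomogeneous w f a) :
    IsWeightedHomogeneous w (X j * pderiv j f) a := by
  induction hf using IsWeightedHomogeneous.induction_on with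
  | zero => rw [map_zero, mul_zero]; exact isWeightedHomogeneous_zero k w a
  | add p q _ _ h1 h2 => rw [map_add, mul_add]; exact h1.add h2
  | monomial d r hr =>
    rw [X_mul_pderiv_monomial, nsmul_eq_mul, ← map_natCast (C : k →+* MvPolynomial (Fin 2) k)]
    exact (isWeightedHomogeneous_monomial w d r hr).C_mul _

theorem jac_nat {k : Type} [Field k] [IsAlgClosed k] [CharZero k] (w : Fin 2 → ℕ)
    (γ : Fin 3 → MvPolynomial (Fin 2) k) (e ω : Fin 3 → ℕ) (l : ℕ) (c : Fin 3 → k)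
    (hw : ∀ i, 0 < w i) (he : ∀ i, 0 < e i) (hl : 0 < l) (heω : ∀ i, e i * ω i = l)
    (hc : ∀ i, c i ≠ 0) (hγ : ∀ i, IsWeightedHomogeneous w (γ i) (ω i))
    (hsum : ∑ i, C (c i) * γ i ^ e i = 0)
    (hz : ∀ i j, i ≠ j → ∀ z : Fin 2 → k, z ≠ 0 → ¬ (eval z (γ i) = 0 ∧ eval z (γ j) = 0)) :
    l + w 0 + w 1 ≤ ω 0 + ω 1 + ω 2 := by
  have hω : ∀ i, 0 < ω i := by
    intro i
    rcases Nat.eq_zero_or_pos (ω i) with h | h
    · have := heω i
      rw [h, mul_zero] at this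
      omega
    · exact h
  have hnu : ∀ i, ¬ IsUnit (γ i) := by
    intro i hu
    have := weight_le w (hγ i) (isWeightedHomogeneous_one k w) one_ne_zero hu.dvd
    have := hω i
    omega
  have hex : ∀ i, ∃ z : Fin 2 → k, z ≠ 0 ∧ eval z (γ i) = 0 := by
    intro i
    by_cases h0 : γ i = 0
    · exact ⟨fun _ => 1, fun h => one_ne_zero (congrFun h 0), by rw [h0, map_zero]⟩
    · exact exists_zero_ne _ h0 (hnu i)
  have hγ0 : ∀ i, γ i ≠ 0 := by
    intro i h0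
    obtain ⟨j, hj'⟩ := exists_ne i
    have hj : i ≠ j := hj'.symm
    obtain ⟨z, hz0, hzj⟩ := hex j
    exact hz i j hj z hz0 ⟨by rw [h0, map_zero], hzj⟩
  have hrel : ∀ i j, i ≠ j → IsRelPrime (γ i) (γ j) := by
    intro i j hij d h1 h2
    by_contra hu
    have hd0 : d ≠ 0 := by
      rintro rfl
      exact hγ0 i (zero_dvd_iff.1 h1)
    obtain ⟨z, hz0, hzd⟩ := exists_zero_ne d hd0 hu
    refine hz i j hij z hz0 ⟨?_, ?_⟩
    · obtain ⟨q, hq⟩ := h1
      rw [hq, map_mul, hzd, zero_mul]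
    · obtain ⟨q, hq⟩ := h2
      rw [hq, map_mul, hzd, zero_mul]
  obtain ⟨U, hU⟩ : ∃ U : Fin 3 → MvPolynomial (Fin 2) k, U = fun i => γ i ^ e i := ⟨_, rfl⟩
  have hU0 : ∀ i, U i ≠ 0 := fun i => by rw [hU]; exact pow_ne_zero _ (hγ0 i)
  have hUh : ∀ i, IsWeightedHomogeneous w (U i) l := by
    intro i
    have := (hγ i).pow (e i)
    rw [smul_eq_mul, heω i] at this
    rw [hU]
    exact this
  have hxD : ∀ i j, IsWeightedHomogeneous w (X j * pderiv j (U i)) l := fun i j =>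
    X_pderiv_hom w j (hUh i)
  have hEu : ∀ i, (w 0 : MvPolynomial (Fin 2) k) * (X 0 * pderiv 0 (U i)) +
      (w 1 : MvPolynomial (Fin 2) k) * (X 1 * pderiv 1 (U i)) =
        (l : MvPolynomial (Fin 2) k) * U i := by
    intro i
    have := (hUh i).sum_weight_X_mul_pderiv
    rw [Fin.sum_univ_two, nsmul_eq_mul, nsmul_eq_mul, nsmul_eq_mul] at this
    exact this
  have hUrel : IsRelPrime (U 0) (U 1) := by
    rw [hU]
    exact (hrel 0 1 (by decide)).pow
  have hlne : (l : MvPolynomial (Fin 2) k) ≠ 0 := by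
    rw [← map_natCast (C : k →+* MvPolynomial (Fin 2) k)]
    exact (map_ne_zero_iff _ (C_injective _ _)).2 (Nat.cast_ne_zero.2 hl.ne')
  obtain ⟨J, hJ⟩ : ∃ J, J = pderiv 0 (U 0) * pderiv 1 (U 1) - pderiv 1 (U 0) * pderiv 0 (U 1) :=
    ⟨_, rfl⟩
  -- a multiple of `U 0` among the derivatives is zero
  have hzero : ∀ j, U 0 ∣ pderiv j (U 0) → pderiv j (U 0) = 0 := by
    intro j hd
    by_contra hne
    have h1 : X j * U 0 ∣ X j * pderiv j (U 0) := mul_dvd_mul_left _ hd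
    have h2 := weight_le w ((isWeightedHomogeneous_X k w j).mul (hUh 0)) (hxD 0 j)
      (mul_ne_zero (X_ne_zero j) hne) h1
    have := hw j
    omega
  have hJ0 : J ≠ 0 := by
    intro hJz
    rw [hJz] at hJ
    have e0 := hEu 0
    have e1 := hEu 1
    have h1 : U 0 * pderiv 1 (U 1) = U 1 * pderiv 1 (U 0) := by
      apply mul_left_cancel₀ hlne
      linear_combination (-pderiv 1 (U 1)) * e0 + (pderiv 1 (U 0)) * e1 -
        ((w 0 : MvPolynomial (Fin 2) k) * X 0) * hJ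
    have h2 : U 0 * pderiv 0 (U 1) = U 1 * pderiv 0 (U 0) := by
      apply mul_left_cancel₀ hlne
      linear_combination (-pderiv 0 (U 1)) * e0 + (pderiv 0 (U 0)) * e1 +
        ((w 1 : MvPolynomial (Fin 2) k) * X 1) * hJ
    have h3 : pderiv 1 (U 0) = 0 := hzero 1 (hUrel.dvd_of_dvd_mul_left ⟨_, h1.symm⟩)
    have h4 : pderiv 0 (U 0) = 0 := hzero 0 (hUrel.dvd_of_dvd_mul_left ⟨_, h2.symm⟩)
    rw [h3, h4] at e0
    simp only [mul_zero, add_zero] at e0
    exact mul_ne_zero hlne (hU0 0) e0.symm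
  -- divisibility
  have hG : ∀ i j, γ i ^ (e i - 1) ∣ pderiv j (U i) := by
    intro i j
    rw [hU]
    simp only
    rw [Derivation.leibniz_pow]
    exact ⟨(e i) • pderiv j (γ i), by rw [smul_eq_mul]; simp only [nsmul_eq_mul]; ring⟩
  have d0 : γ 0 ^ (e 0 - 1) ∣ J := by
    rw [hJ]
    exact dvd_sub ((hG 0 0).mul_right _) ((hG 0 1).mul_right _)
  have d1 : γ 1 ^ (e 1 - 1) ∣ J := by
    rw [hJ]
    exact dvd_sub ((hG 1 1).mul_left _) ((hG 1 0).mul_left _)
  have hlin : ∀ j, C (c 0) * pderiv j (U 0) + C (c 1) * pderiv j (U 1) +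
      C (c 2) * pderiv j (U 2) = 0 := by
    intro j
    have h1 : C (c 0) * U 0 + C (c 1) * U 1 + C (c 2) * U 2 = 0 := by
      rw [Fin.sum_univ_three] at hsum
      rw [hU]
      exact hsum
    have h2 := congrArg (pderiv j) h1
    rw [map_add, map_add, map_zero, pderiv_C_mul, pderiv_C_mul, pderiv_C_mul] at h2
    exact h2
  have d2 : γ 2 ^ (e 2 - 1) ∣ J := by
    have h1 : C (c 1) * J = -(C (c 2) * (pderiv 0 (U 0) * pderiv 1 (U 2) -
        pderiv 1 (U 0) * pderiv 0 (U 2))) := by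
      rw [hJ]
      linear_combination (pderiv 0 (U 0)) * hlin 1 - (pderiv 1 (U 0)) * hlin 0
    have h2 : γ 2 ^ (e 2 - 1) ∣ C (c 1) * J := by
      rw [h1]
      exact ((dvd_sub ((hG 2 1).mul_left _) ((hG 2 0).mul_left _)).mul_left _).neg_right
    have h3 : J = C (c 1)⁻¹ * (C (c 1) * J) := by
      rw [← mul_assoc, ← C_mul, inv_mul_cancel₀ (hc 1), C_1, one_mul]
    rw [h3]
    exact h2.mul_left _
  have hrelG : ∀ i j, i ≠ j → IsRelPrime (γ i ^ (e i - 1)) (γ j ^ (e j - 1)) := fun i j hij =>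
    (hrel i j hij).pow
  have dall : γ 0 ^ (e 0 - 1) * γ 1 ^ (e 1 - 1) * γ 2 ^ (e 2 - 1) ∣ J :=
    ((hrelG 0 2 (by decide)).mul_left (hrelG 1 2 (by decide))).mul_dvd
      ((hrelG 0 1 (by decide)).mul_dvd d0 d1) d2
  -- weights
  have hJh : IsWeightedHomogeneous w (X 0 * X 1 * J) (l + l) := by
    have : X 0 * X 1 * J = (X 0 * pderiv 0 (U 0)) * (X 1 * pderiv 1 (U 1)) -
        (X 1 * pderiv 1 (U 0)) * (X 0 * pderiv 0 (U 1)) := by
      rw [hJ]; ring
    rw [this]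
    exact ((hxD 0 0).mul (hxD 1 1)).sub ((hxD 0 1).mul (hxD 1 0))
  have hGh : IsWeightedHomogeneous w
      (X 0 * X 1 * (γ 0 ^ (e 0 - 1) * γ 1 ^ (e 1 - 1) * γ 2 ^ (e 2 - 1)))
      (w 0 + w 1 + ((e 0 - 1) • ω 0 + (e 1 - 1) • ω 1 + (e 2 - 1) • ω 2)) :=
    ((isWeightedHomogeneous_X k w 0).mul (isWeightedHomogeneous_X k w 1)).mul
      ((((hγ 0).pow _).mul ((hγ 1).pow _)).mul ((hγ 2).pow _))
  have hfin := weight_le w hGh hJh
    (mul_ne_zero (mul_ne_zero (X_ne_zero 0) (X_ne_zero 1)) hJ0) (mul_dvd_mul_left _ dall)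
  have hi : ∀ i, (e i - 1) • ω i + ω i = l := by
    intro i
    obtain ⟨m, hm⟩ := Nat.exists_eq_succ_of_ne_zero (he i).ne'
    have h := heω i
    rw [hm] at h ⊢
    rw [Nat.succ_sub_one, smul_eq_mul, ← h, Nat.succ_mul]
  have h0 := hi 0
  have h1 := hi 1
  have h2 := hi 2
  omega

theorem pf_JAC : T_JAC := by
  intro k _ _ _ w γ e ω l c hw he hl heω hc hγ hsum hz
  have hw' : ∀ i, w i = (((w i).toNat : ℕ) : ℤ) := fun i => (Int.toNat_of_nonneg (hw i).le).symm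
  have hγ' : ∀ i, IsWeightedHomogeneous (fun i => (w i).toNat) (γ i) (ω i) := by
    intro i d hd
    have h := hγ i hd
    rw [Finsupp.weight_apply, Finsupp.sum_fintype _ _ (by simp), Fin.sum_univ_two] at h ⊢
    have h' : ((d 0 • (w 0).toNat + d 1 • (w 1).toNat : ℕ) : ℤ) = (ω i : ℤ) := by
      rw [← h]
      push_cast
      rw [smul_eq_mul, smul_eq_mul, nsmul_eq_mul, nsmul_eq_mul]
      push_cast
      rw [← hw' 0, ← hw' 1]
    exact_mod_cast h'
  have hmain := jac_nat (fun i => (w i).toNat) γ e ω l c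
    (fun i => by have := hw i; omega) he hl heω hc hγ' hsum hz
  rw [Fin.sum_univ_three]
  have h0 := hw' 0
  have h1 := hw' 1
  omega

end Pool.Agent.H90.SYA
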